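import Pool.Agent.R269.SDBasic
import Pool.Agent.R269.SDChoquet

/-!
# MP_0d3a63_an, Q1: no infinite-dimensional space with the super alternative Daugavet property is
strongly regular
-/

set_option autoImplicit false

open Filter Topology Metric Set

namespace Pool.Agent.Results.MP_0d3a63_an.NotStronglyRegular

open Pool.Agent.R269.SD

section
variable {𝕜 X : Type*} [RCLike 𝕜] [NormedAddCommGroup X] [NormedSpace 𝕜 X]

/-- The slice `{x ∈ C : Re f x > sup Re f (C) - α}` of `C`. -/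
def slice (C : Set X) (f : StrongDual 𝕜 X) (α : ℝ) : Set X :=
  {x | x ∈ C ∧ sSup ((fun y => RCLike.re (f y)) '' C) - α < RCLike.re (f x)}

variable (𝕜) in
/-- The combination `∑ c i • S i` of the sets `S i`. -/
def combination {n : ℕ} (c : Fin n → ℝ) (S : Fin n → Set X) : Set X :=
  {x | ∃ s : Fin n → X, (∀ i, s i ∈ S i) ∧ x = ∑ i, ((c i : ℝ) : 𝕜) • s i}

variable (𝕜) in
/-- Convexity, over the real or complex numbers. -/
def IsConvex (C : Set X) : Prop :=
  ∀ x ∈ C, ∀ y ∈ C, ∀ t : ℝ, 0 ≤ t → t ≤ 1 → ((1 - t : ℝ) : 𝕜) • x + ((t : ℝ) : 𝕜) • y ∈ C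

variable (𝕜 X) in
/-- `X` is strongly regular: every nonempty closed bounded convex set has convex combinations of
slices of arbitrarily small diameter. -/
def StronglyRegular : Prop :=
  ∀ C : Set X, C.Nonempty → IsClosed C → Bornology.IsBounded C → IsConvex 𝕜 C → ∀ ε : ℝ, 0 < ε →
    ∃ (n : ℕ) (c : Fin n → ℝ) (f : Fin n → StrongDual 𝕜 X) (α : Fin n → ℝ),
      (∀ i, 0 ≤ c i) ∧ ∑ i, c i = 1 ∧ (∀ i, f i ≠ 0 ∧ 0 < α i) ∧
        Metric.diam (combination 𝕜 c fun i => slice C (f i) (α i)) < ε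

theorem align {n : ℕ} {c : Fin n → ℝ} (hc : ∀ i, 0 ≤ c i) (hc1 : ∑ i, c i = 1)
    {S : Fin n → Set X} (hS : ∀ i, S i ⊆ closedBall 0 1) {y a : Fin n → X} (hy : ∀ i, y i ∈ S i)
    (ha : ∀ i, a i ∈ S i) (ρ : X →+ ℝ) (hρ : ∀ (r : ℝ) (x : X), ρ (((r : ℝ) : 𝕜) • x) = r * ρ x)
    (hρn : ∀ x, |ρ x| ≤ ‖x‖) :
    ∑ i, c i * |ρ (y i - a i)| ≤ Metric.diam (combination 𝕜 c S) := by
  classical
  have hbd : Bornology.IsBounded (combination 𝕜 c S) := by
    refine (Metric.isBounded_closedBall (x := (0 : X)) (r := 1)).subset ?_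
    rintro x ⟨s, hs, rfl⟩
    rw [mem_closedBall_zero_iff]
    calc ‖∑ i, ((c i : ℝ) : 𝕜) • s i‖ ≤ ∑ i, ‖((c i : ℝ) : 𝕜) • s i‖ := norm_sum_le _ _
      _ ≤ ∑ i, c i := by
          refine Finset.sum_le_sum fun i _ => ?_
          rw [norm_smul, RCLike.norm_ofReal, abs_of_nonneg (hc i)]
          have := mem_closedBall_zero_iff.1 (hS i (hs i))
          calc c i * ‖s i‖ ≤ c i * 1 := mul_le_mul_of_nonneg_left this (hc i)
            _ = c i := mul_one _
      _ = 1 := hc1
  set p : Fin n → X := fun i => if 0 ≤ ρ (y i - a i) then y i else a i with hp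
  set q : Fin n → X := fun i => if 0 ≤ ρ (y i - a i) then a i else y i with hq
  have hpq : ∀ i, ρ (p i) - ρ (q i) = |ρ (y i - a i)| := by
    intro i
    by_cases h : 0 ≤ ρ (y i - a i)
    · simp only [hp, hq, if_pos h]
      rw [abs_of_nonneg h, map_sub]
    · simp only [hp, hq, if_neg h]
      rw [abs_of_neg (not_le.1 h), map_sub]
      ring
  have hpS : ∀ i, p i ∈ S i := fun i => by
    simp only [hp]
    split_ifs
    · exact hy i
    · exact ha i
  have hqS : ∀ i, q i ∈ S i := fun i => by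
    simp only [hq]
    split_ifs
    · exact ha i
    · exact hy i
  have hPm : (∑ i, ((c i : ℝ) : 𝕜) • p i) ∈ combination 𝕜 c S := ⟨p, hpS, rfl⟩
  have hQm : (∑ i, ((c i : ℝ) : 𝕜) • q i) ∈ combination 𝕜 c S := ⟨q, hqS, rfl⟩
  have h1 := Metric.dist_le_diam_of_mem hbd hPm hQm
  refine le_trans ?_ h1
  rw [dist_eq_norm]
  refine le_trans ?_ (hρn _)
  rw [map_sub, map_sum, map_sum, ← Finset.sum_sub_distrib]
  refine le_trans (le_of_eq ?_) (le_abs_self _)
  refine Finset.sum_congr rfl fun i _ => ?_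
  rw [hρ, hρ, ← hpq i]
  ring

theorem norm_comb_le {Z : Type*} [NormedAddCommGroup Z] [NormedSpace 𝕜 Z] {u v : Z} {R t : ℝ}
    (ht0 : 0 ≤ t) (ht1 : t ≤ 1) (hu : ‖u‖ ≤ R) (hv : ‖v‖ ≤ R) :
    ‖((1 - t : ℝ) : 𝕜) • u + ((t : ℝ) : 𝕜) • v‖ ≤ R := by
  calc _ ≤ ‖((1 - t : ℝ) : 𝕜) • u‖ + ‖((t : ℝ) : 𝕜) • v‖ := norm_add_le _ _
    _ = (1 - t) * ‖u‖ + t * ‖v‖ := by
        rw [norm_smul, norm_smul, RCLike.norm_ofReal, RCLike.norm_ofReal,
          abs_of_nonneg ht0, abs_of_nonneg (by linarith)]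
    _ ≤ (1 - t) * R + t * R := by
        have : 0 ≤ 1 - t := by linarith
        gcongr
    _ = R := by ring

theorem main (hX : ¬ FiniteDimensional 𝕜 X) (h : SuperADP 𝕜 X) : ¬ StronglyRegular 𝕜 X := by
  classical
  intro hreg
  haveI : Nontrivial X := by
    by_contra hn
    rw [not_nontrivial_iff_subsingleton] at hn
    exact hX inferInstance
  obtain ⟨g₀, hg₀⟩ := exists_functional' 𝕜 X
  set C : Set X := {a | ‖a‖ ≤ 1 ∧ ‖g₀ a‖ ≤ 1 / 2} with hC
  have hCne : C.Nonempty := ⟨0, by simp [hC]⟩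
  have hCcl : IsClosed C := (isClosed_le continuous_norm continuous_const).inter
    (isClosed_le g₀.continuous.norm continuous_const)
  have hCball : C ⊆ closedBall 0 1 := fun a ha => mem_closedBall_zero_iff.2 ha.1
  have hCbd : Bornology.IsBounded C := Metric.isBounded_closedBall.subset hCball
  have hCcv : IsConvex 𝕜 C := by
    intro x hx y hy t ht0 ht1
    refine ⟨norm_comb_le ht0 ht1 hx.1 hy.1, ?_⟩
    rw [map_add, map_smul, map_smul]
    exact norm_comb_le ht0 ht1 hx.2 hy.2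
  obtain ⟨n, c, f, α, hc0, hc1, hfα, hdiam⟩ := hreg C hCne hCcl hCbd hCcv (3 / 16) (by norm_num)
  -- points of the slices with small value of `g₀`
  have hbdd : ∀ i, BddAbove ((fun y => RCLike.re (f i y)) '' C) := by
    intro i
    refine ⟨‖f i‖, ?_⟩
    rintro _ ⟨y, hy, rfl⟩
    refine (RCLike.re_le_norm _).trans ?_
    have := (f i).le_opNorm y
    have h2 := mul_le_mul_of_nonneg_left hy.1 (norm_nonneg (f i))
    linarith
  have hpts : ∀ i, ∃ a : X, ‖a‖ ≤ 1 ∧ ‖g₀ a‖ < 1 / 2 ∧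
      sSup ((fun y => RCLike.re (f i y)) '' C) - α i < RCLike.re (f i a) := by
    intro i
    obtain ⟨_, ⟨b, hb, rfl⟩, hbs⟩ := exists_lt_of_lt_csSup (hCne.image _)
      (show sSup ((fun y => RCLike.re (f i y)) '' C) - α i <
        sSup ((fun y => RCLike.re (f i y)) '' C) by linarith [(hfα i).2])
    have ht : Tendsto (fun t : ℝ => (1 - t) * RCLike.re (f i b)) (𝓝[>] 0)
        (𝓝 ((1 - 0) * RCLike.re (f i b))) := by
      refine Tendsto.mono_left ?_ nhdsWithin_le_nhds
      exact ((continuous_const.sub continuous_id).mul continuous_const).tendsto (0 : ℝ)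
    rw [sub_zero, one_mul] at ht
    have h1 : ∀ᶠ t : ℝ in 𝓝[>] 0, sSup ((fun y => RCLike.re (f i y)) '' C) - α i <
        (1 - t) * RCLike.re (f i b) := ht.eventually (lt_mem_nhds hbs)
    have h2 : ∀ᶠ t : ℝ in 𝓝[>] 0, t < 1 :=
      (nhdsWithin_le_nhds) (gt_mem_nhds one_pos)
    have h3 : ∀ᶠ t : ℝ in 𝓝[>] 0, 0 < t := self_mem_nhdsWithin
    obtain ⟨t, ht1, ht2, ht3⟩ := (h1.and (h2.and h3)).exists
    refine ⟨((1 - t : ℝ) : 𝕜) • b, ?_, ?_, ?_⟩
    · rw [norm_smul, RCLike.norm_ofReal, abs_of_nonneg (by linarith)]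
      have := hb.1
      have := mul_le_mul_of_nonneg_left this (by linarith : 0 ≤ 1 - t)
      linarith
    · rw [map_smul, smul_eq_mul, norm_mul, RCLike.norm_ofReal, abs_of_nonneg (by linarith)]
      have := mul_le_mul_of_nonneg_left hb.2 (by linarith : 0 ≤ 1 - t)
      linarith
    · rw [map_smul, smul_eq_mul, RCLike.re_ofReal_mul]
      exact ht1
  choose a ha1 ha2 ha3 using hpts
  -- weakly open sets
  set U : Fin n → Set (WeakSpace 𝕜 X) := fun i =>
    {y | sSup ((fun y => RCLike.re (f i y)) '' C) - α i <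
      RCLike.re (f i ((toWeakSpace 𝕜 X).symm y))} ∩
    {y | ‖g₀ ((toWeakSpace 𝕜 X).symm y)‖ < 1 / 2} with hUdef
  have hUo : ∀ i, IsOpen (U i) := fun i =>
    (isOpen_lt continuous_const
      (RCLike.continuous_re.comp (Pool.Agent.R271.continuous_dual_weak (f i)))).inter
    (isOpen_lt (Pool.Agent.R271.continuous_dual_weak g₀).norm continuous_const)
  have hUa : ∀ i, toWeakSpace 𝕜 X (a i) ∈ U i := fun i => ⟨ha3 i, ha2 i⟩
  obtain ⟨x, hx, δ, hδ, hgx⟩ := hg₀ (Finset.univ.image a) (1 / 32) (by norm_num)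
  set δ' : ℝ := min δ (1 / 16) with hδ'
  have hδ'pos : 0 < δ' := lt_min hδ (by norm_num)
  have hδ'1 : δ' ≤ 1 / 16 := min_le_right _ _
  obtain ⟨y, θ, hy1, hyU, hθ, hsum⟩ := multi hX h hx n
    (fun j => if hj : j < n then U ⟨j, hj⟩ else univ)
    (fun j => by
      by_cases hj : j < n
      · simpa [hj] using hUo ⟨j, hj⟩
      · simp [hj])
    (fun j => if hj : j < n then a ⟨j, hj⟩ else 0)
    (fun j => by
      by_cases hj : j < n
      · simpa [hj] using ha1 ⟨j, hj⟩
      · simp [hj])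
    (fun j => by
      by_cases hj : j < n
      · simpa [hj] using hUa ⟨j, hj⟩
      · simp [hj]) δ' hδ'pos (by linarith)
  set w : X := x + ∑ i ∈ Finset.range n, θ i • y i with hw
  obtain ⟨g, hgn, hgw⟩ := exists_dual_vector'' 𝕜 w
  have hle : ∀ z : X, ‖z‖ ≤ 1 → RCLike.re (g z) ≤ 1 := by
    intro z hz
    refine (RCLike.re_le_norm _).trans ?_
    have := g.le_of_opNorm_le hgn z
    linarith
  have hθy : ∀ j, ‖θ j • y j‖ ≤ 1 := fun j => by
    rw [norm_smul, hθ, one_mul]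
    exact hy1 j
  have hre : RCLike.re (g x) + ∑ j ∈ Finset.range n, RCLike.re (g (θ j • y j)) = ‖w‖ := by
    have h1 := congrArg RCLike.re hgw
    rw [hw, map_add, map_sum, map_add, map_sum, ← hw, RCLike.ofReal_re] at h1
    exact h1
  have hx' : 1 - δ < RCLike.re (g x) := by
    have h1 : ∑ j ∈ Finset.range n, RCLike.re (g (θ j • y j)) ≤ ∑ j ∈ Finset.range n, (1 : ℝ) :=
      Finset.sum_le_sum fun j _ => hle _ (hθy j)
    rw [Finset.sum_const, Finset.card_range, nsmul_eq_mul, mul_one] at h1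
    have h2 : δ' ≤ δ := min_le_left _ _
    linarith
  have hyj : ∀ j ∈ Finset.range n, 15 / 16 < RCLike.re (g (θ j • y j)) := by
    intro j hj
    have h1 : ∑ i ∈ (Finset.range n).erase j, RCLike.re (g (θ i • y i)) ≤
        ∑ i ∈ (Finset.range n).erase j, (1 : ℝ) := Finset.sum_le_sum fun i _ => hle _ (hθy i)
    rw [Finset.sum_const, Finset.card_erase_of_mem hj, Finset.card_range, nsmul_eq_mul,
      mul_one] at h1
    have h2 := Finset.add_sum_erase (Finset.range n) (fun i => RCLike.re (g (θ i • y i))) hj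
    have h3 := hle x hx.le
    have h4 : ((n - 1 : ℕ) : ℝ) = n - 1 := by
      have : 1 ≤ n := by have := Finset.mem_range.1 hj; omega
      push_cast [Nat.cast_sub this]
      ring
    rw [h4] at h1
    linarith
  -- the differences
  have hdiff : ∀ i : Fin n, 13 / 32 ≤ ‖g (y i - a i)‖ := by
    intro i
    have h1 := hyj i (Finset.mem_range.2 i.2)
    have h2 : 15 / 16 < ‖g (y i)‖ := by
      have h3 := h1.trans_le (RCLike.re_le_norm _)
      rwa [map_smul, norm_smul, hθ, one_mul] at h3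
    have h4 := hgx g hgn hx' (a i) (Finset.mem_image_of_mem _ (Finset.mem_univ i))
    have h5 : ‖g (a i)‖ < 1 / 2 + 1 / 32 := by
      have := norm_le_insert' (g (a i)) (g₀ (a i))
      have h6 := ha2 i
      linarith
    have h7 : ‖g (y i)‖ ≤ ‖g (y i - a i)‖ + ‖g (a i)‖ := by
      rw [map_sub]
      have := norm_add_le (g (y i) - g (a i)) (g (a i))
      rwa [sub_add_cancel] at this
    linarith
  set S : Fin n → Set X := fun i => slice C (f i) (α i) with hS
  have hSball : ∀ i, S i ⊆ closedBall 0 1 := fun i z hz => hCball hz.1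
  have haS : ∀ i, a i ∈ S i := fun i => ⟨⟨ha1 i, (ha2 i).le⟩, ha3 i⟩
  have hyS : ∀ i : Fin n, y i ∈ S i := by
    intro i
    have h1 := hyU i
    simp only [i.2, dif_pos, Fin.eta] at h1
    exact ⟨⟨hy1 i, (le_of_lt h1.2)⟩, h1.1⟩
  have hnorm : ∀ z : X, ‖g z‖ ≤ ‖z‖ := fun z => by
    have := g.le_of_opNorm_le hgn z
    rwa [one_mul] at this
  have k1 := align (𝕜 := 𝕜) hc0 hc1 hSball (y := fun i : Fin n => y i) hyS haS
    ((RCLike.re : 𝕜 →+ ℝ).comp (g : X →+ 𝕜))
    (fun r z => by simp) (fun z => (RCLike.abs_re_le_norm _).trans (hnorm z))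
  have k2 := align (𝕜 := 𝕜) hc0 hc1 hSball (y := fun i : Fin n => y i) hyS haS
    ((RCLike.im : 𝕜 →+ ℝ).comp (g : X →+ 𝕜))
    (fun r z => by simp) (fun z => (RCLike.abs_im_le_norm _).trans (hnorm z))
  have k3 : 13 / 32 ≤ ∑ i, c i * |RCLike.re (g (y i - a i))| +
      ∑ i, c i * |RCLike.im (g (y i - a i))| := by
    rw [← Finset.sum_add_distrib]
    calc (13 / 32 : ℝ) = ∑ i, c i * (13 / 32) := by rw [← Finset.sum_mul, hc1, one_mul]
      _ ≤ _ := by
          refine Finset.sum_le_sum fun i _ => ?_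
          rw [← mul_add]
          refine mul_le_mul_of_nonneg_left ((hdiff i).trans ?_) (hc0 i)
          calc ‖g (y i - a i)‖ = ‖((RCLike.re (g (y i - a i)) : ℝ) : 𝕜) +
              ((RCLike.im (g (y i - a i)) : ℝ) : 𝕜) * RCLike.I‖ := by rw [RCLike.re_add_im]
            _ ≤ ‖((RCLike.re (g (y i - a i)) : ℝ) : 𝕜)‖ +
              ‖((RCLike.im (g (y i - a i)) : ℝ) : 𝕜) * RCLike.I‖ := norm_add_le _ _
            _ ≤ _ := by
                rw [norm_mul, RCLike.norm_ofReal, RCLike.norm_ofReal]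
                have h8 : ‖(RCLike.I : 𝕜)‖ ≤ 1 := by
                  rcases eq_or_ne (RCLike.I : 𝕜) 0 with h0 | h0
                  · rw [h0, norm_zero]
                    exact zero_le_one
                  · rw [RCLike.norm_I_of_ne_zero h0]
                have := mul_le_mul_of_nonneg_left h8 (abs_nonneg (RCLike.im (g (y i - a i))))
                linarith
  have k4 : ∑ i, c i * |RCLike.re (g (y i - a i))| ≤ Metric.diam (combination 𝕜 c S) := k1
  have k5 : ∑ i, c i * |RCLike.im (g (y i - a i))| ≤ Metric.diam (combination 𝕜 c S) := k2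
  linarith

end

/-- No infinite-dimensional Banach space (real or complex) with the super alternative Daugavet
property is strongly regular. -/
theorem result (𝕜 X : Type*) [RCLike 𝕜] [NormedAddCommGroup X] [NormedSpace 𝕜 X]
    [CompleteSpace X] (hX : ¬ FiniteDimensional 𝕜 X) (h : SuperADP 𝕜 X) :
    ¬ StronglyRegular 𝕜 X :=
  main hX h

end Pool.Agent.Results.MP_0d3a63_an.NotStronglyRegular
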